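import Pool.Agent.Helper30_SkewP4.Stmts

/-! Squad SKEW, module DEL (helper48): the second Chern form. -/

set_option autoImplicit false

open scoped Matrix

namespace Pool.Agent.SkewP4.H48

open Pool.Agent.SkewP4

/-- DEL -/
theorem del (hBasic : BasicStmt) (hScal : ScalStmt) : DelStmt := by
  intro Λ _ _ M n W hn
  have B := hBasic Λ M n W
  have S := hScal Λ M n W hn
  have hq : MG M 0 1 W.q := MG.map_d (p := 0) (q := 0) (fun a b => W.Q_mem a b)
  have hD : MG M 1 0 W.D := fun a b => W.D_mem a b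
  have hP : MG M 0 0 W.P := MG_one.sub (MG.mul (p := 0) (q := 0) (p' := 0) (q' := 0)
    (fun a b => W.Q_mem a b) (fun a b => W.A_mem a b))
  have hF : MG M 1 1 W.F := MG.mul (MG.mul hq hD) hP
  have hFF : MG M 2 2 (W.F * W.F) := MG.mul hF hF
  have ht : W.t ∈ M.G 1 1 := hF.trace
  have htt : W.t * W.t ∈ M.G 2 2 := M.mul_mem _ _ _ _ _ _ ht ht
  have hst : M.s W.t = W.t := s_even ht (by norm_num)
  have hdt : M.d W.t = 0 := by rw [S.t_eq, map_smul, S.dh, smul_zero]
  have hit : M.i W.t = 0 := by rw [S.t_eq, map_smul, S.ih, smul_zero]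
  have z : (W.q * W.D * W.q * W.A) * W.F = 0 := by
    rw [Matrix.mul_assoc, B.AF, Matrix.mul_zero]
  refine ⟨?_, ?_, ?_⟩
  · exact Submodule.smul_mem _ _ (Submodule.sub_mem _ htt hFF.trace)
  · unfold LamData.de
    rw [map_smul, map_sub, M.d_mul, hdt, hst, zero_mul, mul_zero, add_zero, d_trace,
      Ev.map_d_mul B.evF, B.dF, Matrix.trace_add, neg_mul, mul_neg, Matrix.trace_neg,
      Matrix.trace_neg, B.evF.trace_mul_comm, z]
    simp
  · unfold LamData.de
    rw [map_smul, map_sub, M.i_mul, hit, hst, zero_mul, mul_zero, add_zero, i_trace,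
      Ev.map_i_mul B.evF, B.iF]
    simp

end Pool.Agent.SkewP4.H48
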