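import Pool.Agent.Helper30_SkewP4.Stmts

/-! Squad SKEW, module FRD (helper48): partial derivatives of the field of rational functions. -/

set_option autoImplicit false

namespace Pool.Agent.SkewP4.H48

open Pool.Agent.SkewP4

theorem exists_ext (j : Fin 5) : ∃ D : Derivation ℂ L L, ∀ r : R,
    D (algebraMap R L r) = algebraMap R L (MvPolynomial.pderiv (Sum.inr j) r) := by
  have _ : Algebra.FormallyEtale R L :=
    Algebra.FormallyEtale.of_isLocalization (nonZeroDivisors R)
  have hB := KaehlerDifferential.isBaseChange_of_formallyEtale ℂ R L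
  let δ : Derivation ℂ R L := (Algebra.linearMap R L).compDer (MvPolynomial.pderiv (Sum.inr j))
  let ℓ : Ω[L⁄ℂ] →ₗ[L] L := hB.lift δ.liftKaehlerDifferential
  refine ⟨ℓ.compDer (KaehlerDifferential.D ℂ L), fun r => ?_⟩
  have h1 : (KaehlerDifferential.D ℂ L) (algebraMap R L r) =
      KaehlerDifferential.map ℂ ℂ R L (KaehlerDifferential.D ℂ R r) := by
    rw [KaehlerDifferential.map_D]
  change ℓ ((KaehlerDifferential.D ℂ L) (algebraMap R L r)) = _
  rw [h1, hB.lift_eq, Derivation.liftKaehlerDifferential_comp_D]
  rfl

theorem der_zero (D : Derivation ℂ L L) (h : ∀ r : R, D (algebraMap R L r) = 0) (a : L) :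
    D a = 0 := by
  obtain ⟨r, s, _, rfl⟩ := IsFractionRing.div_surjective (A := R) a
  rw [Derivation.leibniz_div, h, h]
  simp

/-- FRD -/
theorem frd : FrdStmt := by
  choose D hD using exists_ext
  refine ⟨fun j => (D j : L →ₗ[ℂ] L), fun j a b => ?_, fun j r => hD j r, fun i j a => ?_⟩
  · change D j (a * b) = D j a * b + a * D j b
    rw [Derivation.leibniz]
    simp only [smul_eq_mul]
    ring
  · have h := der_zero ⁅D i, D j⁆ (fun r => by
      rw [Derivation.commutator_apply, hD, hD, hD, hD, ← map_sub]
      have : MvPolynomial.pderiv (Sum.inr i) (MvPolynomial.pderiv (Sum.inr j) r) =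
          MvPolynomial.pderiv (Sum.inr j) (MvPolynomial.pderiv (Sum.inr i) r) := by
        have h0 : ⁅(MvPolynomial.pderiv (Sum.inr i) : Derivation ℂ R R),
            (MvPolynomial.pderiv (Sum.inr j) : Derivation ℂ R R)⁆ = 0 := by
          apply MvPolynomial.derivation_ext
          intro k
          rw [Derivation.commutator_apply, MvPolynomial.pderiv_X, MvPolynomial.pderiv_X]
          simp only [Pi.single_apply]
          split_ifs <;> simp
        have h1 := congrArg (fun D : Derivation ℂ R R => D r) h0
        simp only [Derivation.commutator_apply, Derivation.coe_zero, Pi.zero_apply] at h1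
        exact sub_eq_zero.mp h1
      rw [this, sub_self, map_zero]) a
    rw [Derivation.commutator_apply] at h
    exact sub_eq_zero.mp h

end Pool.Agent.SkewP4.H48
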